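import Pool.Agent.E8helper80.AX.B1
import Pool.Agent.E8helper57.AX.Apex

/-!
# Project AX: piece B2 (a Laurent polynomial without apex coefficient vanishes)
-/

set_option autoImplicit false

namespace Pool.Agent.E8helper10.AX

open Finset Polynomial
open Pool.Agent.E8helper80.AX Pool.Agent.E8helper57.AX

lemma factor_zero {P : ℚ[X]} {i n : ℕ} (h1 : ∀ k < i, P.coeff k = 0)
    (h2 : ∀ b < n, (taylor 1 P).coeff b = 0) (h3 : ∀ k, i + n ≤ k → P.coeff k = 0) : P = 0 := by
  have d1 : X ^ i ∣ P := X_pow_dvd_iff.2 h1
  have d2 : (X - C 1) ^ n ∣ P := by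
    rw [X_sub_C_pow_dvd_iff, X_pow_dvd_iff]
    exact h2
  have hco : IsCoprime (X ^ i : ℚ[X]) ((X - C 1) ^ n) :=
    IsCoprime.pow ⟨1, -1, by rw [C_1]; ring⟩
  have d3 := hco.mul_dvd d1 d2
  by_contra hP
  have h4 := degree_le_of_dvd d3 hP
  have h5 : P.degree < ((i + n : ℕ) : WithBot ℕ) := by
    rw [degree_lt_iff_coeff_zero]
    exact fun k hk => h3 k hk
  have h6 : (X ^ i * (X - C 1) ^ n : ℚ[X]).degree = ((i + n : ℕ) : WithBot ℕ) := by
    rw [degree_mul, degree_pow, degree_pow, degree_X, degree_X_sub_C]
    simp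
  rw [h6] at h4
  exact absurd (h4.trans_lt h5) (lt_irrefl _)

lemma KK_eq : 2 * KK * (KK - 9) = 9 := by
  have h : √11 * √11 = (11 : ℝ) := Real.mul_self_sqrt (by norm_num)
  unfold KK
  nlinarith

lemma KK_irr {u t : ℤ} (ht : t ≠ 0) (h : KK * u = t) : False := by
  have hu : (u : ℝ) ≠ 0 := by
    intro hu
    rw [hu, mul_zero] at h
    exact ht (by exact_mod_cast h.symm)
  have irr : Irrational (√((11 : ℕ) : ℝ)) := Nat.Prime.irrational_sqrt (by norm_num)
  refine irr ⟨(2 * t - 9 * u) / (3 * u), ?_⟩
  push_cast
  rw [div_eq_iff (by positivity)]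
  unfold KK at h
  linarith

theorem apexfree {h m : ℕ} (hd0 : 0 ≤ KK * h - (KK + 1) * m) (hd1 : KK * h - (KK + 1) * m < 1 / 2)
    {f : (ℤ × ℤ) →₀ ℚ} (hf : (↑f.support : Set (ℤ × ℤ)) ⊆ AB h) (h0 : f (0, (h : ℤ)) = 0)
    (hH : ∀ b < m, ∀ c : ℤ, ⌊KK * h - (KK + 1) * (b : ℝ)⌋ < c + 11 * ((m : ℤ) - b) → tc f c b = 0) :
    f = 0 := by
  obtain ⟨k1, k2, k3⟩ := KK_bounds
  have hK := KK_eq
  have hK2 : (KK + 1) * (10 - KK) = 11 / 2 := by nlinarith
  have hpos : ∀ p ∈ f.support, 0 ≤ p.2 := fun p hp => (supp hf hp).1
  -- positive `c`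
  have Hpos : ∀ c : ℤ, 0 < c → ph f c = 0 := by
    intro c hc
    have hc' : (1 : ℝ) ≤ c := by exact_mod_cast hc
    apply taylor_injective 1
    rw [map_zero]
    ext b
    rw [coeff_zero]
    by_cases hb : b < m
    · rw [ph_taylor]
      refine tc_zero hH hb ?_
      have hb' : (b : ℝ) < m := by exact_mod_cast hb
      have : 0 ≤ (10 - KK) * ((m : ℝ) - b) := mul_nonneg (by linarith) (by linarith)
      linarith
    · push Not at hb
      have hdeg : (ph f c).degree < (m : ℕ) := by
        rw [degree_lt_iff_coeff_zero]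
        intro k hk
        apply ph_high ph_coeff hf
        have hk' : (m : ℝ) ≤ k := by exact_mod_cast hk
        nlinarith
      apply coeff_eq_zero_of_degree_lt
      rw [degree_taylor]
      exact hdeg.trans_le (by exact_mod_cast hb)
  have Hneg : ∀ i : ℕ, ph f (-(i : ℤ)) = 0 := by
    intro i
    induction i using Nat.strong_induction_on with
    | _ i ih =>
      -- the columns
      have hw : ∀ (t : ℤ) (k : ℕ), (k : ℤ) < t + i → wc f t k = 0 := by
        intro t k hk
        have h1 : ph f (t - k) = 0 := by
          rcases lt_or_ge 0 (t - (k : ℤ)) with h2 | h2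
          · exact Hpos _ h2
          · have h3 := ih (-(t - (k : ℤ))).toNat (by omega)
            rw [Int.toNat_of_nonneg (by omega), neg_neg] at h3
            exact h3
        have h2 := ph_coeff f (t - k) k
        rw [h1, coeff_zero, sub_add_cancel] at h2
        exact h2.symm
      have hcol : ∀ t : ℤ, 0 ≤ t → t ≤ i → colp f t = 0 := by
        intro t ht0 hti
        rcases eq_or_lt_of_le ht0 with h1 | h1
        · subst h1
          ext j
          rw [colp_coeff f hpos, coeff_zero]
          by_contra hne
          have hp : ((0 : ℤ), (j : ℤ)) ∈ f.support := Finsupp.mem_support_iff.2 hne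
          obtain ⟨-, -, h3, h4, -⟩ := supp hf hp
          simp only [Int.cast_zero, Int.cast_natCast, Nat.cast_le] at h3 h4
          by_cases hj : j = h
          · rw [hj] at hne
            exact hne h0
          · have h5 : (j : ℝ) < h := by
              have : j < h := by omega
              exact_mod_cast this
            nlinarith
        · have ht : (1 : ℝ) ≤ t := by exact_mod_cast h1
          obtain ⟨n, hn⟩ : ∃ n : ℕ, (n : ℤ) = t + i := ⟨(t + i).toNat, by omega⟩
          have hn' : (n : ℝ) = t + i := by exact_mod_cast hn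
          have hti' : (t : ℝ) ≤ i := by exact_mod_cast hti
          have hc1 := Int.le_ceil ((h : ℝ) - 2 * KK / 9 * t)
          refine factor_zero (i := ⌈(h : ℝ) - 2 * KK / 9 * t⌉.toNat) (n := n) ?_ ?_ ?_
          · intro j hj
            rw [colp_coeff f hpos]
            by_contra hne
            have hp : (t, (j : ℤ)) ∈ f.support := Finsupp.mem_support_iff.2 hne
            obtain ⟨-, -, -, h4, -⟩ := supp hf hp
            simp only [Int.cast_natCast] at h4
            have hj2 : (j : ℤ) < ⌈(h : ℝ) - 2 * KK / 9 * t⌉ := by omega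
            rw [Int.lt_ceil] at hj2
            simp only [Int.cast_natCast] at hj2
            -- 2 K / 9 * t < h - j and (K - 9) (h - j) ≤ t
            have h5 : 2 * KK / 9 * t < (h : ℝ) - j := by linarith
            have h6 := mul_lt_mul_of_pos_left h5 (show (0 : ℝ) < KK - 9 by linarith)
            have h7 : (KK - 9) * (2 * KK / 9 * t) = t := by
              have : (KK - 9) * (2 * KK / 9 * t) = 2 * KK * (KK - 9) / 9 * t := by ring
              rw [this, hK]
              ring
            linarith
          · intro b hb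
            rw [colp_taylor]
            exact hw t b (by omega)
          · intro j hj
            rw [colp_coeff f hpos]
            by_contra hne
            have hp : (t, (j : ℤ)) ∈ f.support := Finsupp.mem_support_iff.2 hne
            obtain ⟨-, -, -, -, h5⟩ := supp hf hp
            simp only [Int.cast_natCast] at h5
            have hj2 : ⌈(h : ℝ) - 2 * KK / 9 * t⌉ + n ≤ (j : ℤ) := by omega
            have hj3 : (⌈(h : ℝ) - 2 * KK / 9 * t⌉ : ℝ) + n ≤ (j : ℝ) := by exact_mod_cast hj2
            have h6 : (h : ℝ) - j ≤ 2 * KK / 9 * t - 2 * t := by linarith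
            have h7 := mul_le_mul_of_nonneg_left h6 (show (0 : ℝ) ≤ KK by linarith)
            have h8 : KK * (2 * KK / 9 * t - 2 * t) = t := by
              have : KK * (2 * KK / 9 * t - 2 * t) = 2 * KK * (KK - 9) / 9 * t := by ring
              rw [this, hK]
              ring
            refine KK_irr (u := (h : ℤ) - j) (t := t) (by omega) ?_
            push_cast
            linarith
      -- the factors of `ph f (-i)`
      have hs0 : (0 : ℝ) ≤ ((i : ℝ) + (KK * h - (KK + 1) * m)) * (KK + 1) * (2 / 11) := by
        have : (0 : ℝ) ≤ i := Nat.cast_nonneg i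
        have : (0 : ℝ) ≤ KK + 1 := by linarith
        positivity
      obtain ⟨s, hs⟩ : ∃ s : ℝ, s = ((i : ℝ) + (KK * h - (KK + 1) * m)) * (KK + 1) * (2 / 11) :=
        ⟨_, rfl⟩
      rw [← hs] at hs0
      have hs1 : (10 - KK) * s = (i : ℝ) + (KK * h - (KK + 1) * m) := by
        rw [hs]
        have : (10 - KK) * (((i : ℝ) + (KK * h - (KK + 1) * m)) * (KK + 1) * (2 / 11)) =
          ((i : ℝ) + (KK * h - (KK + 1) * m)) * ((KK + 1) * (10 - KK)) * (2 / 11) := by ring
        rw [this, hK2]
        ring
      have hJ1 := Nat.floor_le hs0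
      have hJ2 := Nat.lt_floor_add_one s
      obtain ⟨J, hJ⟩ : ∃ J : ℕ, J = ⌊s⌋₊ := ⟨_, rfl⟩
      rw [← hJ] at hJ1 hJ2
      refine factor_zero (i := 2 * i + 1) (n := m - J) ?_ ?_ ?_
      · intro k hk
        by_cases hki : k < i
        · exact ph_low ph_coeff hf (by omega)
        · rw [ph_coeff]
          have h1 := colp_taylor f (-(i : ℤ) + k) k
          rw [hcol _ (by omega) (by omega), map_zero, coeff_zero] at h1
          exact h1.symm
      · intro b hb
        rw [ph_taylor]
        refine tc_zero hH (by omega) ?_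
        have h1 : (b : ℝ) + J + 1 ≤ m := by
          have : b + J + 1 ≤ m := by omega
          exact_mod_cast this
        have h2 : s < (m : ℝ) - b := by linarith
        have h3 := mul_lt_mul_of_pos_left h2 (show (0 : ℝ) < 10 - KK by linarith)
        push_cast
        linarith
      · intro k hk
        apply ph_high ph_coeff hf
        have h1 : (2 * i + 1 + m : ℝ) ≤ k + J := by
          have : 2 * i + 1 + m ≤ k + J := by omega
          exact_mod_cast this
        have h2 : (2 * i + 1 + m - s : ℝ) ≤ k := by linarith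
        have h3 := mul_le_mul_of_nonneg_left h2 (show (0 : ℝ) ≤ KK + 1 by linarith)
        have h4 : 11 * s < (KK + 1) * (2 * i + 1) := by
          have : 11 * s = (KK + 1) * (2 * ((i : ℝ) + (KK * h - (KK + 1) * m))) := by
            rw [hs]; ring
          rw [this]
          exact mul_lt_mul_of_pos_left (by linarith) (by linarith)
        push_cast
        nlinarith
  have Hall : ∀ c : ℤ, ph f c = 0 := by
    intro c
    rcases lt_or_ge 0 c with h1 | h1
    · exact Hpos c h1
    · have := Hneg (-c).toNat
      rw [Int.toNat_of_nonneg (by omega), neg_neg] at this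
      exact this
  ext ⟨t, j⟩
  rw [Finsupp.coe_zero, Pi.zero_apply]
  by_contra hne
  have hj := hpos _ (Finsupp.mem_support_iff.2 hne)
  simp only at hj
  have h1 := colp_coeff f hpos t j.toNat
  rw [Int.toNat_of_nonneg hj] at h1
  have h2 : colp f t = 0 := by
    apply taylor_injective 1
    rw [map_zero]
    ext k
    rw [colp_taylor, coeff_zero]
    have h2 := ph_coeff f (t - k) k
    rw [Hall, coeff_zero, sub_add_cancel] at h2
    exact h2.symm
  rw [h2, coeff_zero] at h1
  exact hne h1.symm

end Pool.Agent.E8helper10.AX
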